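import Pool.Agent.H28.Uni2

set_option autoImplicit false

namespace Pool.Agent.Results.MP_c9dba7_co.SixEight

open Pool.Agent.H28.UniB

/-- `G` is generated unicursally by `T`: a sequence `t_1, …, t_N` in `T`, `N = |G|`, whose partial
products `g_k = t_1 ⋯ t_k` (`1 ≤ k ≤ N`) are pairwise distinct and with `g_N = 1`. -/
def Unicursal {G : Type} [Group G] (T : Set G) : Prop :=
  ∃ t : List G, t.length = Nat.card G ∧ (∀ g ∈ t, g ∈ T) ∧
    (∀ i j : ℕ, 1 ≤ i → i < j → j ≤ Nat.card G → (t.take i).prod ≠ (t.take j).prod) ∧ t.prod = 1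

/-- With `n = m + 2` points `0, …, m + 1`: the transposition of the last two points. -/
def A (m : ℕ) : Equiv.Perm (Fin (m + 2)) := Equiv.swap (Fin.last m).castSucc (Fin.last (m + 1))

/-- The cycle `0 ↦ 1 ↦ ⋯ ↦ m ↦ 0` on the first `n - 1 = m + 1` points, fixing the last point. -/
def B (m : ℕ) : Equiv.Perm (Fin (m + 2)) := ((List.finRange (m + 1)).map Fin.castSucc).formPerm

def c6 (g : Equiv.Perm (Fin 6)) : ℕ :=
  (g 0).val + 8 * (g 1).val + 64 * (g 2).val + 512 * (g 3).val + 4096 * (g 4).val +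
    32768 * (g 5).val

def c8 (g : Equiv.Perm (Fin 8)) : ℕ :=
  (g 0).val + 8 * (g 1).val + 64 * (g 2).val + 512 * (g 3).val + 4096 * (g 4).val +
    32768 * (g 5).val + 262144 * (g 6).val + 2097152 * (g 7).val

theorem six : Unicursal ({A 4, B 4} : Set (Equiv.Perm (Fin 6))) := by
  have hA : ∀ g : Equiv.Perm (Fin 6), c6 (g * A 4) = sA6 (c6 g) := by
    intro g
    have e : A 4 0 = 0 ∧ A 4 1 = 1 ∧ A 4 2 = 2 ∧ A 4 3 = 3 ∧ A 4 4 = 5 ∧ A 4 5 = 4 := by decide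
    obtain ⟨e0, e1, e2, e3, e4, e5⟩ := e
    have := (g 0).isLt; have := (g 1).isLt; have := (g 2).isLt; have := (g 3).isLt
    have := (g 4).isLt; have := (g 5).isLt
    simp only [c6, sA6, Equiv.Perm.mul_apply, e0, e1, e2, e3, e4, e5]
    omega
  have hB : ∀ g : Equiv.Perm (Fin 6), c6 (g * B 4) = sB6 (c6 g) := by
    intro g
    have e : B 4 0 = 1 ∧ B 4 1 = 2 ∧ B 4 2 = 3 ∧ B 4 3 = 4 ∧ B 4 4 = 0 ∧ B 4 5 = 5 := by decide
    obtain ⟨e0, e1, e2, e3, e4, e5⟩ := e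
    have := (g 0).isLt; have := (g 1).isLt; have := (g 2).isLt; have := (g 3).isLt
    have := (g 4).isLt; have := (g 5).isLt
    simp only [c6, sB6, Equiv.Perm.mul_apply, e0, e1, e2, e3, e4, e5]
    omega
  have hc : c6 1 = 181896 := by decide
  have h1 : ∀ g : Equiv.Perm (Fin 6), c6 g = c6 1 → g = 1 := by
    intro g hg
    rw [hc] at hg
    have := (g 0).isLt; have := (g 1).isLt; have := (g 2).isLt; have := (g 3).isLt
    have := (g 4).isLt; have := (g 5).isLt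
    simp only [c6] at hg
    have k : (g 0).val = 0 ∧ (g 1).val = 1 ∧ (g 2).val = 2 ∧ (g 3).val = 3 ∧ (g 4).val = 4 ∧
      (g 5).val = 5 := by omega
    obtain ⟨k0, k1, k2, k3, k4, k5⟩ := k
    ext i
    fin_cases i
    exacts [k0, k1, k2, k3, k4, k5]
  obtain ⟨t, h⟩ := main (A 4) (B 4) W6 c6 sA6 sB6 (fun c => rk 6 c 0 0) hA hB h1
    (by rw [hc]; decide) 30 24 (by rw [hc]; exact run6)
  have hN : Nat.card (Equiv.Perm (Fin 6)) = 24 * 30 := by
    rw [Nat.card_eq_fintype_card, Fintype.card_perm, Fintype.card_fin]; decide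
  refine ⟨t, by rw [hN]; exact h.1, fun g hg => ?_, by rw [hN]; exact h.2.2.1, h.2.2.2⟩
  exact h.2.1 g hg

theorem eight : Unicursal ({A 6, B 6} : Set (Equiv.Perm (Fin 8))) := by
  have hA : ∀ g : Equiv.Perm (Fin 8), c8 (g * A 6) = sA8 (c8 g) := by
    intro g
    have e : A 6 0 = 0 ∧ A 6 1 = 1 ∧ A 6 2 = 2 ∧ A 6 3 = 3 ∧ A 6 4 = 4 ∧ A 6 5 = 5 ∧
      A 6 6 = 7 ∧ A 6 7 = 6 := by decide
    obtain ⟨e0, e1, e2, e3, e4, e5, e6, e7⟩ := e
    have := (g 0).isLt; have := (g 1).isLt; have := (g 2).isLt; have := (g 3).isLt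
    have := (g 4).isLt; have := (g 5).isLt; have := (g 6).isLt; have := (g 7).isLt
    simp only [c8, sA8, Equiv.Perm.mul_apply, e0, e1, e2, e3, e4, e5, e6, e7]
    omega
  have hB : ∀ g : Equiv.Perm (Fin 8), c8 (g * B 6) = sB8 (c8 g) := by
    intro g
    have e : B 6 0 = 1 ∧ B 6 1 = 2 ∧ B 6 2 = 3 ∧ B 6 3 = 4 ∧ B 6 4 = 5 ∧ B 6 5 = 6 ∧
      B 6 6 = 0 ∧ B 6 7 = 7 := by decide
    obtain ⟨e0, e1, e2, e3, e4, e5, e6, e7⟩ := e
    have := (g 0).isLt; have := (g 1).isLt; have := (g 2).isLt; have := (g 3).isLt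
    have := (g 4).isLt; have := (g 5).isLt; have := (g 6).isLt; have := (g 7).isLt
    simp only [c8, sB8, Equiv.Perm.mul_apply, e0, e1, e2, e3, e4, e5, e6, e7]
    omega
  have hc : c8 1 = 16434824 := by decide
  have h1 : ∀ g : Equiv.Perm (Fin 8), c8 g = c8 1 → g = 1 := by
    intro g hg
    rw [hc] at hg
    have := (g 0).isLt; have := (g 1).isLt; have := (g 2).isLt; have := (g 3).isLt
    have := (g 4).isLt; have := (g 5).isLt; have := (g 6).isLt; have := (g 7).isLt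
    simp only [c8] at hg
    have k : (g 0).val = 0 ∧ (g 1).val = 1 ∧ (g 2).val = 2 ∧ (g 3).val = 3 ∧ (g 4).val = 4 ∧
      (g 5).val = 5 ∧ (g 6).val = 6 ∧ (g 7).val = 7 := by omega
    obtain ⟨k0, k1, k2, k3, k4, k5, k6, k7⟩ := k
    ext i
    fin_cases i
    exacts [k0, k1, k2, k3, k4, k5, k6, k7]
  obtain ⟨t, h⟩ := main (A 6) (B 6) W8 c8 sA8 sB8 (fun c => rk 8 c 0 0) hA hB h1
    (by rw [hc]; decide) 210 192 (by rw [hc]; exact run8)
  have hN : Nat.card (Equiv.Perm (Fin 8)) = 192 * 210 := by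
    rw [Nat.card_eq_fintype_card, Fintype.card_perm, Fintype.card_fin]; decide
  refine ⟨t, by rw [hN]; exact h.1, fun g hg => ?_, by rw [hN]; exact h.2.2.1, h.2.2.2⟩
  exact h.2.1 g hg

theorem result : ∀ m : ℕ, m + 2 = 6 ∨ m + 2 = 8 →
    Unicursal ({A m, B m} : Set (Equiv.Perm (Fin (m + 2)))) := by
  intro m hm
  obtain rfl | rfl : m = 4 ∨ m = 6 := by omega
  · exact six
  · exact eight

end Pool.Agent.Results.MP_c9dba7_co.SixEight
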